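import Pool.Agent.Q72.AL.StmG
import Pool.Agent.Q260.LF.Zs2

/-!
# Project AL (helper72), job GB: the gaps between the ordinates of the zeros of zeta are bounded
-/

set_option autoImplicit false

open Complex Filter Topology Set

namespace Pool.Agent.Q252.AL

open Pool.Agent.Q72.AL
open Pool.Agent.Q260.LF (MM rv_up)

/-- the two counting functions -/
theorem NZ_NN {t : ℝ} (ht : 1 ≤ t) : (SG.NZ t : ℝ) = SG.NZ 1 + (H370.NN riemannZeta 1 t : ℝ) := by
  have h4 : (SG.NZ t : ℝ) ≤ SG.NZ 1 + H370.NN riemannZeta 1 t := by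
    exact_mod_cast SG.NZ_le_add 1 t le_rfl
  have hfin := H370.zset_finite H370.good_zeta 1 t le_rfl
  have e : H370.NN riemannZeta 1 t = ∑ s ∈ hfin.toFinset, H370.mult riemannZeta s := by
    unfold H370.NN
    exact finsum_mem_eq_finite_toFinset_sum _ hfin
  have h1 := SG.NZ_add_le 1 t ht hfin.toFinset (by
    intro s hs
    rw [Set.Finite.mem_toFinset] at hs
    obtain ⟨a1, a2, a3, a4, a5⟩ := hs
    exact ⟨⟨a5, a1, a2, by linarith, a4⟩, a3⟩)
  have h2 : (SG.NZ 1 : ℝ) + (H370.NN riemannZeta 1 t : ℝ) ≤ SG.NZ t := by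
    rw [e]
    exact_mod_cast h1
  linarith

/-- growth of the main term -/
theorem MM_growth {t K : ℝ} (ht : 10 ≤ t) (hK : 0 ≤ K) :
    K / (2 * Real.pi) * Real.log (t / (2 * Real.pi)) ≤ MM (t + K) - MM t := by
  have hpi := Real.pi_gt_three
  set a := 2 * Real.pi with ha
  have ha0 : 0 < a := by positivity
  have ht0 : 0 < t := by linarith
  have h1 : Real.log ((t + K) / a) = Real.log (t / a) + Real.log ((t + K) / t) := by
    rw [← Real.log_mul (by positivity) (by positivity)]
    congr 1
    field_simp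
  have h2 : 1 - t / (t + K) ≤ Real.log ((t + K) / t) := by
    have := Real.one_sub_inv_le_log_of_pos (show 0 < (t + K) / t by positivity)
    rwa [inv_div] at this
  have h3 : K ≤ (t + K) * Real.log ((t + K) / t) := by
    have h4 := mul_le_mul_of_nonneg_left h2 (show 0 ≤ t + K by linarith)
    have h5 : (t + K) * (1 - t / (t + K)) = K := by
      have : t + K ≠ 0 := by positivity
      field_simp
      ring
    rwa [h5] at h4
  have h6 : MM (t + K) - MM t =
      (K * Real.log (t / a) + ((t + K) * Real.log ((t + K) / t) - K)) / a := by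
    unfold MM
    rw [← ha, h1]
    field_simp
    ring
  rw [h6, div_mul_eq_mul_div]
  apply div_le_div_of_nonneg_right _ ha0.le
  linarith

/-- GB -/
theorem gb : J_GB := by
  obtain ⟨C, hC, hrv⟩ := rv_up
  have hpi := Real.pi_gt_three
  have hpi4 := Real.pi_lt_four
  set K : ℝ := 16 * Real.pi * C + 1 with hK
  have hK0 : 0 < K := by positivity
  set T0 : ℝ := max 100 K with hT0
  have hT100 : 100 ≤ T0 := le_max_left _ _
  have hTK : K ≤ T0 := le_max_right _ _
  have hmain : ∀ t : ℝ, T0 ≤ t → SG.NZ t + 1 ≤ SG.NZ (t + K) := by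
    intro t ht
    have ht100 : 100 ≤ t := hT100.trans ht
    have ht0 : 0 < t := by linarith
    have h1 := hrv t (by linarith)
    have h2 := hrv (t + K) (by linarith)
    have h3 := MM_growth (t := t) (K := K) (by linarith) hK0.le
    have h4 := NZ_NN (t := t) (by linarith)
    have h5 := NZ_NN (t := t + K) (by linarith)
    rw [abs_le] at h1 h2
    have hlt : 1 ≤ Real.log t := by
      rw [Real.le_log_iff_exp_le ht0]
      have := Real.exp_one_lt_d9
      linarith
    -- log (t / 2π) ≥ log t / 2
    have h6 : Real.log t / 2 ≤ Real.log (t / (2 * Real.pi)) := by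
      have h7 : Real.log t / 2 = Real.log (√t) := by
        rw [Real.log_sqrt ht0.le]
      rw [h7]
      apply Real.log_le_log (Real.sqrt_pos.2 ht0)
      rw [le_div_iff₀ (by positivity)]
      have h8 : (10 : ℝ) ≤ √t := Real.le_sqrt_of_sq_le (by linarith)
      have h9 : √t * √t = t := Real.mul_self_sqrt ht0.le
      nlinarith
    -- log (t + K) ≤ 2 log t
    have h10 : Real.log (t + K) ≤ 2 * Real.log t := by
      have h11 : 2 * Real.log t = Real.log (t ^ 2) := by
        rw [Real.log_pow]
        norm_num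
      rw [h11]
      apply Real.log_le_log (by positivity)
      have : K ≤ t := hTK.trans ht
      nlinarith
    have h12 : K / (2 * Real.pi) * (Real.log t / 2) ≤
        K / (2 * Real.pi) * Real.log (t / (2 * Real.pi)) :=
      mul_le_mul_of_nonneg_left h6 (by positivity)
    have h13 : K / (2 * Real.pi) * (Real.log t / 2) =
        4 * C * Real.log t + Real.log t / (4 * Real.pi) := by
      rw [hK]
      field_simp
      ring
    have h14 : 0 < Real.log t / (4 * Real.pi) := by positivity
    have h15 : C * Real.log (t + K) ≤ C * (2 * Real.log t) :=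
      mul_le_mul_of_nonneg_left h10 hC.le
    have h16 : 0 < C * Real.log t := by positivity
    have h17 : (SG.NZ t : ℝ) < SG.NZ (t + K) := by
      linarith [h1.1, h1.2, h2.1, h2.2]
    exact_mod_cast h17
  refine ⟨K + |SG.ord (SG.NZ T0 + 1)|, by positivity, fun n hn => ?_⟩
  rcases le_or_gt T0 (SG.ord n) with h | h
  · have h1 := hmain _ h
    have h2 : n ≤ SG.NZ (SG.ord n) := (SG.ord_le_iff hn _).1 le_rfl
    have h3 : SG.ord (n + 1) ≤ SG.ord n + K := (SG.ord_le_iff (by omega) _).2 (by omega)
    have h4 := abs_nonneg (SG.ord (SG.NZ T0 + 1))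
    linarith
  · have h1 : n ≤ SG.NZ T0 := (SG.ord_le_iff hn _).1 h.le
    have h2 : SG.ord (n + 1) ≤ SG.ord (SG.NZ T0 + 1) := SG.ord_mono (by omega) (by omega)
    have h3 := SG.ord_pos hn
    have h4 := le_abs_self (SG.ord (SG.NZ T0 + 1))
    linarith

end Pool.Agent.Q252.AL
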