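import Pool.Agent.Q72.AL.Stm2

/-!
# Project AL (helper72), job SQF: the Dirichlet series of the squarefree numbers
-/

set_option autoImplicit false

open Complex Filter Topology Set

namespace Pool.Agent.Q252.AL

open Pool.Agent.Q72.AL

/-- the coefficient times the power -/
noncomputable def fs (s : ℂ) (n : ℕ) : ℂ :=
  (((ArithmeticFunction.moebius n : ℤ) : ℂ)) ^ 2 * (n : ℂ) ^ (-s)

theorem fs_zero (s : ℂ) : fs s 0 = 0 := by simp [fs]

theorem fs_one (s : ℂ) : fs s 1 = 1 := by simp [fs]

theorem fs_mul (s : ℂ) {m n : ℕ} (h : Nat.Coprime m n) : fs s (m * n) = fs s m * fs s n := by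
  unfold fs
  rw [ArithmeticFunction.isMultiplicative_moebius.map_mul_of_coprime h, Nat.cast_mul,
    Complex.natCast_mul_natCast_cpow]
  push_cast
  ring

theorem mu_sq_le (n : ℕ) : ‖(((ArithmeticFunction.moebius n : ℤ) : ℂ)) ^ 2‖ ≤ 1 := by
  rcases ArithmeticFunction.moebius_eq_or n with h | h | h <;> rw [h] <;> simp

theorem fs_summable {s : ℂ} (hs : 1 < s.re) : Summable fun n => ‖fs s n‖ := by
  have h1 : Summable fun n : ℕ => (n : ℝ) ^ (-s.re) := Real.summable_nat_rpow.2 (by linarith)
  refine Summable.of_nonneg_of_le (fun n => norm_nonneg _) (fun n => ?_) h1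
  rcases Nat.eq_zero_or_pos n with h | h
  · rw [h, fs_zero, norm_zero]
    positivity
  · unfold fs
    rw [norm_mul, Complex.norm_natCast_cpow_of_pos h, neg_re]
    have := mu_sq_le n
    have h2 : 0 ≤ (n : ℝ) ^ (-s.re) := by positivity
    nlinarith

theorem fs_prime (s : ℂ) (p : Nat.Primes) : ∑' e, fs s (p ^ e) = 1 + (p : ℂ) ^ (-s) := by
  rw [tsum_eq_sum (s := Finset.range 2)]
  · rw [Finset.sum_range_succ, Finset.sum_range_one, pow_zero, pow_one, fs_one]
    unfold fs
    rw [ArithmeticFunction.moebius_apply_prime p.2]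
    simp
  · intro e he
    rw [Finset.mem_range, not_lt] at he
    unfold fs
    rw [ArithmeticFunction.moebius_apply_prime_pow p.2 (by omega), if_neg (by omega)]
    simp

/-- SQF -/
theorem sqf : J_SQF := by
  intro s hs
  have h1 := EulerProduct.eulerProduct_hasProd (f := fs s) (fs_one s) (fun h => fs_mul s h)
    (fs_summable hs) (fs_zero s)
  have hs2 : 1 < (2 * s).re := by
    simp
    linarith
  have h2 := riemannZeta_eulerProduct_hasProd hs2
  have h3 := riemannZeta_eulerProduct_hasProd hs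
  have h4 := h1.mul h2
  have h5 : (fun p : Nat.Primes => (∑' e, fs s (p ^ e)) * (1 - (p : ℂ) ^ (-(2 * s)))⁻¹) =
      fun p : Nat.Primes => (1 - (p : ℂ) ^ (-s))⁻¹ := by
    funext p
    rw [fs_prime]
    set x := ((p : ℕ) : ℂ) ^ (-s) with hx
    have hp0 : ((p : ℕ) : ℂ) ≠ 0 := by exact_mod_cast p.2.ne_zero
    have h6 : ((p : ℕ) : ℂ) ^ (-(2 * s)) = x ^ 2 := by
      rw [hx, ← Complex.cpow_nat_mul]
      congr 1
      push_cast
      ring
    have hnx : ‖x‖ < 1 := by
      rw [hx, Complex.norm_natCast_cpow_of_pos p.2.pos, neg_re]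
      exact Real.rpow_lt_one_of_one_lt_of_neg (by exact_mod_cast p.2.one_lt) (by linarith)
    have h7 : 1 - x ≠ 0 := by
      intro h
      have : x = 1 := by linear_combination -h
      rw [this, norm_one] at hnx
      exact lt_irrefl _ hnx
    have h8 : 1 + x ≠ 0 := by
      intro h
      have : x = -1 := by linear_combination h
      rw [this, norm_neg, norm_one] at hnx
      exact lt_irrefl _ hnx
    rw [h6]
    have h9 : (1 : ℂ) - x ^ 2 = (1 + x) * (1 - x) := by ring
    rw [h9]
    field_simp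
  rw [h5] at h4
  exact h4.unique h3

end Pool.Agent.Q252.AL
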